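import Pool.Agent.X232.CG.Main
import Pool.Agent.X232.CF.P.Main
import Pool.Agent.Y797.IV.Unr
set_option autoImplicit false

/-!
`K_{d+1}` of hypersurfaces of every dimension `d ≥ 2` and every degree over `ℚ` (and over number
fields), the case `i = d - 1` of the conjecture for arithmetic schemes of Krull dimension `d + 1`
(twist `d + 1`): on the hypersurfaces `λ ∏_e L_e = 1` for `m + 1` hyperplanes `L_e = 0` of the affine
space of dimension `d + 1` in general position the regulator is an isomorphism on the part of the
integral motivic cohomology which is generated by the symbols of all units of the coordinate ring;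
this part has dimension exactly `binom(m, d + 1)`, the geometric genus of the hypersurface.
-/

namespace Pool.Agent.Results.MP_a09a03_nt.AllDimensions

open Pool.Agent.TH826.MK (Torus)

open Pool.Agent.TH826.GA (GRing gcst geqn)

open Pool.Agent.X232.CG (RegIso Two)

section defs

variable {K : Type*} [Field K] {d m : ℕ}

/-- The hyperplanes `∑_j c_{e,j} x_j = a_e`, `0 ≤ e ≤ m`, of the affine space of dimension `d + 1`
have integral coefficients and are in general position: the linear parts of `d + 1` different forms
are linearly independent, and `d + 2` different hyperplanes have no common point. -/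
structure Arrangement (c : Fin (m + 1) → Fin (d + 1) → K) (a : Fin (m + 1) → K) : Prop where
  int_c : ∀ e j, IsIntegral ℤ (c e j)
  int_a : ∀ e, IsIntegral ℤ (a e)
  indep : ∀ T : Fin (d + 1) → Fin (m + 1), Function.Injective T →
    (Matrix.of fun i j => c (T i) j).det ≠ 0
  general : ∀ S : Fin (d + 2) → Fin (m + 1), Function.Injective S → ∀ x : Fin (d + 1) → K,
    ∃ i, ∑ j, c (S i) j * x j ≠ a (S i)

/-- The integer `D ≠ 0` clears the denominators of the vertices of the arrangement, the common points
of `d + 1` of the hyperplanes. -/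
structure Clearing (c : Fin (m + 1) → Fin (d + 1) → K) (a : Fin (m + 1) → K) (D : K) : Prop where
  ne_zero : D ≠ 0
  integral : IsIntegral ℤ D
  clears : ∀ T : Fin (d + 1) → Fin (m + 1), Function.Injective T → ∀ x : Fin (d + 1) → K,
    (∀ i, ∑ j, c (T i) j * x j = a (T i)) → ∀ j, IsIntegral ℤ (D * x j)

/-- The gradient of the equation `λ ∏_e (∑_j c_{e,j} x_j - a_e) = 1` does not vanish at the complex
points over `σ`. -/
def Smooth (σ : K →+* ℂ) (lam : K) (c : Fin (m + 1) → Fin (d + 1) → K) (a : Fin (m + 1) → K) :
    Prop :=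
  ∀ x : Fin (d + 1) → ℂ, MvPolynomial.eval₂ σ x (geqn lam c a) = 0 →
    ∃ j, MvPolynomial.eval₂ σ x (MvPolynomial.pderiv j (geqn lam c a)) ≠ 0

/-- `RegIso` holds for the function field `L` of the hypersurface, with the dimension
`binom(m, d + 1)` and with tori over `σ` which are indexed by the subsets with `d + 1` elements of a
set with `m` elements; and the symbols with two constant entries vanish if `K = ℚ`. -/
def RegulatorIsomorphism.{w, v} {K : Type w} [Field K] [NumberField K] {d m : ℕ} (σ : K →+* ℂ)
    (lam : K) (c : Fin (m + 1) → Fin (d + 1) → K) (a : Fin (m + 1) → K) : Prop :=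
  ∀ (L : Type v) [Field L] [Algebra (GRing lam c a) L] [IsFractionRing (GRing lam c a) L],
    RegIso (gcst lam c a) L d (m.choose (d + 1)) {t : Finset (Fin m) // t.card = d + 1} σ ∧
    (Module.finrank ℚ K = 1 →
      Two ((algebraMap (GRing lam c a) L).comp (gcst lam c a)) (d + 1) = ⊥)

end defs

/-- Let `K` be a number field (for instance `ℚ`) with a complex embedding `σ`, let `2 ≤ d < m`, and
let `L_e`, `0 ≤ e ≤ m`, be polynomials of degree one in `d + 1` variables over the ring of integers
of `K` such that the hyperplanes `L_e = 0` are in general position. There are integers `D ≥ 1` which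
clear the denominators of the vertices of the arrangement. There is a constant `Λ` such that for all
these `D` (in the ring of integers of `K`), all algebraic integers `μ` of `K` and
`λ = μ D ^ (m + 1)` with `|σ λ| ≥ Λ` the coordinate ring `A` of the hypersurface `λ ∏_e L_e = 1` is a
domain, the hypersurface is smooth at its complex points over `σ`, and for its function field `L`:
let `P` be the set of the elements of `K_{d+1}(A) ⊗ ℚ` (symbols of arbitrary units of `A`) whose
images in `K_{d+1}(L) ⊗ ℚ` are unramified at the discrete valuations of `L` trivial on `K`. Then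
these images are unramified at all discrete valuations of `L`, modulo the symbols with two constant
entries; the regulators of the elements of `P` (for all tori over complex embeddings of `K`) form a
`ℚ`-vector space of dimension exactly `binom(m, d + 1)`; if the regulators over `σ` of an element of
`P` vanish, then its image in `K_{d+1}(L) ⊗ ℚ` vanishes modulo the symbols with two constant
entries, and all its regulators vanish; and for suitable `binom(m, d + 1)` tori over `σ` the
`ℝ`-linear extension of the regulators is an isomorphism onto `ℝ ^ binom(m, d + 1)`. If `K = ℚ` the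
symbols with two constant entries vanish. -/
theorem result.{u, v} (K : Type u) [Field K] [NumberField K] (σ : K →+* ℂ) (d m : ℕ) (hd : 2 ≤ d)
    (hm : d < m) (c : Fin (m + 1) → Fin (d + 1) → K) (a : Fin (m + 1) → K)
    (h : Arrangement c a) :
    (∃ D : ℕ, 0 < D ∧ Clearing c a (D : K)) ∧
    ∃ Λ : ℝ, ∀ D mu : K, Clearing c a D → IsIntegral ℤ mu → Λ ≤ ‖σ (mu * D ^ (m + 1))‖ →
      IsDomain (GRing (mu * D ^ (m + 1)) c a) ∧ Smooth σ (mu * D ^ (m + 1)) c a ∧
        RegulatorIsomorphism.{u, v} σ (mu * D ^ (m + 1)) c a := by
  obtain ⟨k, rfl⟩ : ∃ k, d = k + 1 := ⟨d - 1, by omega⟩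
  have hG : Pool.Agent.Y797.IV.GenPos c a := ⟨h.indep, h.general⟩
  have hTinj : ∀ T : Fin (k + 1 + 1) → Fin (m + 1),
      (Pool.Agent.TH826.GA.cm c T).det ≠ 0 → Function.Injective T := by
    intro T hT i j hij
    by_contra hne
    apply hT
    refine Matrix.det_zero_of_row_eq hne ?_
    funext l
    show c (T i) l = c (T j) l
    rw [hij]
  have hvtx : ∀ T : Fin (k + 1 + 1) → Fin (m + 1), (Pool.Agent.TH826.GA.cm c T).det ≠ 0 →
      ∀ i, ∑ j, c (T i) j * Pool.Agent.TH826.GA.vtx c a T j = a (T i) := by
    intro T hT i
    rw [Pool.Agent.TH826.GA.eval_vtx]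
    simp only [Pool.Agent.TH826.GA.al_T T hT]
    rw [Finset.sum_eq_single i]
    · rw [if_pos rfl, one_mul]
    · intro j _ hj
      rw [if_neg (fun h => hj h.symm), zero_mul]
    · intro h
      exact absurd (Finset.mem_univ i) h
  have huniq : ∀ T : Fin (k + 1 + 1) → Fin (m + 1), (Pool.Agent.TH826.GA.cm c T).det ≠ 0 →
      ∀ x : Fin (k + 1 + 1) → K, (∀ i, ∑ j, c (T i) j * x j = a (T i)) →
        x = Pool.Agent.TH826.GA.vtx c a T := by
    intro T hT x hx
    have h1 : (Pool.Agent.TH826.GA.cm c T).mulVec
        (x - Pool.Agent.TH826.GA.vtx c a T) = 0 := by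
      funext i
      have h2 := hx i
      have h3 := hvtx T hT i
      rw [Matrix.mulVec, dotProduct, Pi.zero_apply]
      simp only [Pi.sub_apply, mul_sub]
      rw [Finset.sum_sub_distrib]
      show ∑ j, c (T i) j * x j - ∑ j, c (T i) j * Pool.Agent.TH826.GA.vtx c a T j = 0
      rw [h2, h3, sub_self]
    exact sub_eq_zero.1 (Matrix.eq_zero_of_mulVec_eq_zero hT h1)
  refine ⟨?_, ?_⟩
  · obtain ⟨D, hD⟩ := Pool.Agent.Y797.IV.exists_clears c a
    refine ⟨D, Nat.pos_of_ne_zero fun h0 => hD.1 (by rw [h0, Nat.cast_zero]), hD.1, hD.2.1,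
      fun T hT x hx j => ?_⟩
    rw [huniq T (h.indep T hT) x hx]
    exact hD.2.2 T (h.indep T hT) j
  · obtain ⟨c1, hc1, h1⟩ := Pool.Agent.TH826.GA.exists_tori (a := a) σ hG.1 hG.2
    obtain ⟨c2, h2⟩ := Pool.Agent.TH826.GA.exists_smooth (c := c) (a := a)
      (d := k + 1) σ hG.1 hG.2 (by omega)
    refine ⟨max c1 c2, fun D mu hD hmu hl => ?_⟩
    have hDc : Pool.Agent.Y797.IV.Clears c a D :=
      ⟨hD.ne_zero, hD.integral, fun T hT j => hD.clears T (hTinj T hT) _ (hvtx T hT) j⟩
    set lam : K := mu * D ^ (m + 1) with hlam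
    have hlam0 : lam ≠ 0 := by
      intro h0
      have h3 := (le_max_left c1 c2).trans hl
      rw [h0, map_zero, norm_zero] at h3
      linarith
    obtain ⟨Γ, hΓ, hdet⟩ := h1 lam ((le_max_left _ _).trans hl)
    refine ⟨Pool.Agent.TH826.GA.isDomain_GRing (d := k) hG.1 (by omega) hlam0,
      h2 lam ((le_max_right _ _).trans hl), fun L _ _ _ => ⟨?_, fun hK => ?_⟩⟩
    · exact Pool.Agent.X232.CG.regIso_of L σ hG (by omega) hlam0
        (fun t => Pool.Agent.X232.CF.P.symb_mem_unramified' (algebraMap (GRing lam c a) L) hG
          h.int_c h.int_a hDc hmu hlam (Pool.Agent.TH826.GA.splx_injective t))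
        Γ hΓ hdet
    · have hs : Function.Surjective (algebraMap ℚ K) := by
        intro y
        obtain ⟨v, hv, h⟩ := finrank_eq_one_iff'.1 hK
        obtain ⟨a, ha⟩ := h 1
        obtain ⟨b, hb⟩ := h y
        have ha0 : a ≠ 0 := by
          rintro rfl
          rw [zero_smul] at ha
          exact zero_ne_one ha
        refine ⟨b / a, ?_⟩
        rw [← hb, Algebra.smul_def]
        rw [Algebra.smul_def] at ha
        have h3 : algebraMap ℚ K a ≠ 0 := (_root_.map_ne_zero _).2 ha0
        rw [map_div₀, div_eq_iff h3, mul_assoc, mul_comm v, ha, mul_one]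
      exact Pool.Agent.X232.CG.two_bot (Pool.Agent.X232.CF.P.kq_zero_of hs) _ _

end Pool.Agent.Results.MP_a09a03_nt.AllDimensions
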