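import Pool.Agent.X321.UA.Main
import Pool.Agent.TH577.UA.Smooth
import Pool.Agent.TH577.UA.Dom
set_option autoImplicit false

/-!
Beilinson's regulators in weight `dim X + 1`, for `i = dim X`: the exact leading term, as `λ` tends to
infinity, of the regulator determinants of the hypersurfaces `λ g ∏_e L_e ^ (w_e + 1) = 1`, where the
`L_e` are arbitrary different affine forms with integral coefficients whose maximal minors are zero or
units.
-/

namespace Pool.Agent.Results.MP_a09a03_nt.ArrangementLimit

open Pool.Agent.TH826.MK (KQ symb Unramified Torus)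

open Pool.Agent.TH826.GA (cm vtx)

open Pool.Agent.TH577.UA

/-- Let `1 ≤ n`, let `σ` be a complex embedding of the number field `K`, and let
`L_e = ∑_j c_{e,j} x_j - a_e`, `0 ≤ e ≤ m`, be affine forms in `n + 1` variables with integral
coefficients in `K`, such that all determinants `det (c_{T_i,j})` of `n + 1` of the forms are zero or
units (of the ring of algebraic integers), not all of them are zero, and no form is a multiple of
another one. Let `w_e ≥ 0` be integers and let `g` be a polynomial with integral coefficients which
does not vanish at the vertices of the arrangement (the common zeros of `n + 1` forms with nonzero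
determinant).

For every `ε > 0` there is a constant `C > 1` such that for all algebraic integers `λ` of `K` with
`|σ λ| ≥ C` the following holds for the coordinate ring `A` of the hypersurface
`λ g ∏_e L_e ^ (w_e + 1) = 1`.

For all `T = (T_0, ..., T_n)` with nonzero determinant the symbol `{u_0, ..., u_n}`,
`u_i = κ_i L_{T_i} / L_{h_i}`, where `h_i` is the largest index such that the determinant of `T` with
`T_i` replaced by `h_i` is not zero and `κ_i` is the quotient of this determinant and of the one of
`T`, has unramified images in the Milnor K-theory of all fields `L` with a homomorphism `A → L`.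

There are tori `Γ_T` of dimension `n` in the complex points (over `σ`) of the hypersurface, such that
the determinant of the regulators of the symbols of the `T'` on the tori `Γ_T`, divided by
`∏_T (- (2 π) ^ n (w_{T_0} + 1) ^ (n - 1) log |σ λ|)`, differs from `1` by at most `ε`; here
`T` and `T'` run through the set `Ix` of all `T_0 < ... < T_n` with nonzero determinant such that
every `T_i` can be replaced by a later form (with nonzero determinant), and every other form which
vanishes at the vertex of `T` can replace a later form `T_i`. -/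
theorem result (n : ℕ) (hn : 1 ≤ n) (m : ℕ) (K : Type*) [Field K] [NumberField K]
    (σ : K →+* ℂ) (c : Fin (m + 1) → Fin (n + 1) → K) (a : Fin (m + 1) → K) (hA : UMod c a)
    (hD : Distinct c a)
    (w : Fin (m + 1) → ℕ) (g : MvPolynomial (Fin (n + 1)) K)
    (hg : ∀ k, IsIntegral ℤ (g.coeff k))
    (hv : ∀ T : Fin (n + 1) → Fin (m + 1), (cm c T).det ≠ 0 →
      MvPolynomial.eval (vtx c a T) g ≠ 0) (ε : ℝ) (hε : 0 < ε) :
    ∃ C : ℝ, 1 < C ∧ ∀ lam : K, IsIntegral ℤ lam → C ≤ ‖σ lam‖ →
      (∀ (L : Type*) [Field L] (f : ARing lam g w c a →+* L) (T : Fin (n + 1) → Fin (m + 1)),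
        (cm c T).det ≠ 0 →
          KQ.map (n + 1) f (symb (aent lam g w c a T)) ∈ Unramified L (n + 1)) ∧
      ∃ Γ : Ix c a → Torus (ARing lam g w c a) n,
        (∀ T θ (x : K), (Γ T).e θ (acst lam g w c a x) = σ x) ∧
        |(Matrix.of fun T T' : Ix c a =>
          (Γ T).reg (symb (aent lam g w c a T'.1))).det /
          (∏ T : Ix c a, (-((2 * Real.pi) ^ n * ((w (T.1 0) : ℝ) + 1) ^ (n - 1) *
            Real.log ‖σ lam‖))) - 1| ≤ ε := by
  obtain ⟨d, rfl⟩ : ∃ d, n = d + 1 := ⟨n - 1, by omega⟩
  obtain ⟨c1, hc1, h⟩ := Pool.Agent.X321.UA.exists_tori_limit (g := g) (w := w) σ hD hv hε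
  refine ⟨c1 + 1, by linarith, fun lam hlam hl => ?_⟩
  refine ⟨fun L _ f T hT => symb_mem_unramified f hlam hg hA hT, ?_⟩
  obtain ⟨Γ, h1, h2⟩ := h lam (by linarith)
  refine ⟨Γ, h1, le_of_eq_of_le ?_ h2⟩
  congr 3
  refine Finset.prod_congr rfl fun T _ => ?_
  have h3 : ((w (T.1 0) : ℝ) + 1) ≠ 0 := by positivity
  rw [Nat.add_sub_cancel, pow_succ ((w (T.1 0) : ℝ) + 1) d]
  field_simp

end Pool.Agent.Results.MP_a09a03_nt.ArrangementLimit
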