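import Pool.Agent.X321.GC.Main
import Pool.Agent.Y797.GC.Unr
set_option autoImplicit false

/-!
Beilinson's regulators on `K_2` of the curves `λ g ∏_i (y - φ_i(x)) ^ (w_i + 1) ∏_k (x - ρ_k) ^ ν_k = 1`
over number fields: the exact asymptotic value, as `λ` tends to infinity, of the regulator
determinants of a basis of the lattice of the integral classes. The incidence graph of the
arrangement decides: on the loops at the points outside of a spanning forest the determinant is
asymptotic to `(2 π log |λ|) ^ dim`, on all other choices of `dim` loops it is of smaller order.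
-/

namespace Pool.Agent.Results.MP_a09a03_nt.CycleLatticeLimit

open Pool.Agent.TH826.MK (KQ symb Unramified Torus)

open Pool.Agent.Y797.GC

open Pool.Agent.X321.GC (IsLatticeBasis Cotree)

open Polynomial (C)

section defs

variable {K : Type*} [Field K] {r p : ℕ}

/-- The `φ_i` are different and have integral coefficients, the `ρ_k` are different and integral,
`g` has integral coefficients and does not vanish at the points `(ρ_k, φ_i(ρ_k))`. -/
def IntegralData (A : Arr K r p) : Prop :=
  (∀ i j, IsIntegral ℤ ((A.phi i).coeff j)) ∧ (∀ k, IsIntegral ℤ (A.rho k)) ∧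
    (∀ i j, IsIntegral ℤ ((A.g.coeff i).coeff j)) ∧ Function.Injective A.phi ∧
    Function.Injective A.rho ∧ ∀ i k, (A.g.eval (A.phi i)).eval (A.rho k) ≠ 0

/-- The determinant of the regulators of the classes of the integral matrices `B_m` on the loops
`Γ_{i,k}` at the places `(i, k) = S_l`. -/
noncomputable def regDet (A : Arr K r p) (lam : K) (Γ : Fin (r + 1) → Fin p → Torus (A.Open lam) 1)
    (B : Fin A.dim → Fin (r + 1) → Fin p → ℤ) (S : Fin A.dim → Fin (r + 1) × Fin p) : ℝ :=
  (Matrix.of fun l m : Fin A.dim =>
    (Γ (S l).1 (S l).2).reg (A.cl lam fun i k => (B m i k : ℚ))).det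

end defs

/-- Let `σ` be a complex embedding of the number field `K`, let `φ_0, ..., φ_r` be different
polynomials with integral coefficients, let `ρ_1, ..., ρ_p` be different algebraic integers of `K`,
let `w_i ≥ 0` and `ν_k ≥ 0` be integers, and let `g` be a polynomial in `K[x, y]` with integral
coefficients which does not vanish at the points `(ρ_k, φ_i(ρ_k))`. Let `Adm` be the space of the
rational matrices `n = (n_{i,k})` such that the sums of the rows and of the columns vanish, and for
every `k` with `ν_k = 0` and every `z` the sum of the `n_{i,k}` over all `i` with `φ_i(ρ_k) = z`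
vanishes (these are the flows on the incidence graph of the arrangement), and let `dim` be its
dimension. The lattice of the integral matrices in `Adm` has a basis of `dim` elements, and there are
`dim` places `S` such that no matrix in `Adm` except `0` vanishes at the places `S` (the places
outside of a spanning forest of the graph).

For every `ε > 0` there is a constant `c` such that for all algebraic integers `λ` of `K` with
`|σ λ| ≥ c` the following holds for the curve
`λ g ∏_i (y - φ_i(x)) ^ (w_i + 1) ∏_k (x - ρ_k) ^ ν_k = 1`.

The class `∑_{i,k} n_{i,k} {y - φ_i(x), x - ρ_k}` of every `n` in `Adm` has an unramified image in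
`K_2 ⊗ ℚ` of all fields `L` with a homomorphism from the coordinate ring of the open part (where no
`x - ρ_k` vanishes) to `L`, for example of the function field of the curve.

There are loops `Γ_{i,k}` in the complex points (over `σ`) of the open part, one for every pair
`(i, k)`, such that for all `n` the quotient of the regulator of the class of `n` on `Γ_{i,k}` by
`log |σ λ|` differs from `-2 π n_{i,k}` by at most `ε ∑ |n_{j,l}|`.

For every basis `B` of the lattice of the integral matrices in `Adm` and all `dim` places `S`: if no
matrix in `Adm` except `0` vanishes at the places `S`, the absolute value of the determinant of the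
regulators of the classes of `B` on the loops at the places `S`, divided by `(2 π log |σ λ|) ^ dim`,
differs from `1` by at most `ε`, and otherwise it is at most `ε`. -/
theorem result.{u, v} (r p : ℕ) (K : Type u) [Field K] [NumberField K] (σ : K →+* ℂ)
    (A : Arr K r p) (hA : IntegralData A) :
    (∃ B, IsLatticeBasis A B) ∧ (∃ S, Cotree A S) ∧
    ∀ ε : ℝ, 0 < ε → ∃ c : ℝ, 1 < c ∧ ∀ lam : K, IsIntegral ℤ lam → c ≤ ‖σ lam‖ →
      (∀ n, A.IsAdm n → ∀ (L : Type v) [Field L] (f : A.Open lam →+* L),
        KQ.map 2 f (A.cl lam n) ∈ Unramified L 2) ∧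
      ∃ Γ : Fin (r + 1) → Fin p → Torus (A.Open lam) 1,
        (∀ i k θ (x : K), (Γ i k).e θ (A.toO lam (C (C x))) = σ x) ∧
        (∀ i k (n : Fin (r + 1) → Fin p → ℚ),
          |(Γ i k).reg (A.cl lam n) / Real.log ‖σ lam‖ + 2 * Real.pi * (n i k : ℝ)| ≤
            ε * ∑ j, ∑ l, |(n j l : ℝ)|) ∧
        ∀ B, IsLatticeBasis A B → ∀ S : Fin A.dim → Fin (r + 1) × Fin p,
          (Cotree A S →
            |(|regDet A lam Γ B S| / (2 * Real.pi * Real.log ‖σ lam‖) ^ A.dim) - 1| ≤ ε) ∧
          (¬ Cotree A S →
            |regDet A lam Γ B S| / (2 * Real.pi * Real.log ‖σ lam‖) ^ A.dim ≤ ε) := by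
  obtain ⟨hphi, hrho, hg, hphi', hrho', hv⟩ := hA
  refine ⟨Pool.Agent.X321.GC.exists_latticeBasis A, Pool.Agent.X321.GC.exists_cotree A,
    fun ε hε => ?_⟩
  obtain ⟨Λ, hΛ1, hΛ⟩ := Pool.Agent.X321.GC.exists_tori_limit (A := A) σ hphi' hrho' hv hε
  exact ⟨Λ, hΛ1, fun lam hlam hl => ⟨fun n hn L _ f =>
    cl_mem_unramified f hphi hrho hg hlam hn, hΛ lam hl⟩⟩

end Pool.Agent.Results.MP_a09a03_nt.CycleLatticeLimit
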