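import Pool.Agent.X232.CF.E.Main
set_option autoImplicit false

/-!
Beilinson's regulator for `K_2` of elliptic curves over real quadratic fields: on the curves
`z + 1/z = w x² - w - 1/w`, `w ≠ ± 1` a unit, the regulator is an isomorphism onto `ℝ²` on the part
of the integral motivic cohomology which is generated by the symbols of the functions without zeros
and poles outside of the points with `x = ± 1 ± 1/w, ∞`.
-/

namespace Pool.Agent.Results.MP_a09a03_nt.RealQuadraticIsomorphism

open Polynomial NumberField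

open Pool.Agent.TH826.MK (Torus)

open Pool.Agent.TH826.HD (POpen pcst)

open Pool.Agent.X232.CF (IsoModConstants)

variable {K : Type*} [Field K]

/-- the polynomial `w x² - w - 1/w` -/
noncomputable def pol (w : K) : K[X] := C w * X ^ 2 + C (-(w + w⁻¹))

/-- the four numbers `± (1 + 1/w)`, `± (1 - 1/w)` -/
noncomputable def pnt (w : K) : Fin 4 → K := ![1 + w⁻¹, -(1 + w⁻¹), 1 - w⁻¹, -(1 - w⁻¹)]

/-- The coordinate ring `K[x, z, ∏ (x - b)⁻¹] / (z² - (w x² - w - 1/w) z + 1)` of the open part of
the curve `z + 1/z = w x² - w - 1/w` where `x` is none of the four numbers `b = ± 1 ± 1/w`. -/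
abbrev Ring (w : K) : Type _ := POpen (pol w) (pnt w)

/-- The curve is smooth at all complex points over the embedding `s`. -/
def Smooth (s : K →+* ℂ) (w : K) : Prop :=
  ∀ x z : ℂ, z ^ 2 - (pol w).eval₂ s x * z + 1 = 0 →
    2 * z - (pol w).eval₂ s x ≠ 0 ∨ (derivative (pol w)).eval₂ s x * z ≠ 0

/-- The real embedding `s`, with values in the field of complex numbers. -/
noncomputable def cx (s : K →+* ℝ) : K →+* ℂ := Complex.ofRealHom.comp s

/-- The loop lies in the complex points of the curve over the real embedding `s`. -/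
def Over (s : K →+* ℝ) {w : K} (Γ : Torus (Ring w) 1) : Prop :=
  ∀ θ (y : K), Γ.e θ (pcst (pol w) (pnt w) y) = cx s y

/-- Let `K` be a real quadratic field with the embeddings `s 0 ≠ s 1 : K → ℝ`, and let `w` be a unit
of the ring of integers with `w² ≠ 1`. Let `A` be the coordinate ring of the open part
`x ≠ ± 1 ± 1/w` of the (elliptic) curve `z + 1/z = w x² - w - 1/w`. Then `A` is a domain, the curve
is smooth at the complex points over both embeddings, and for its function field `L`
`IsoModConstants` holds with the two types of loops given by the two embeddings: the elements of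
`K_2(L) ⊗ ℚ` which come from symbols of units of `A` and are unramified over `K` are integral modulo
`K_2(K) ⊗ ℚ`, they form modulo `K_2(K) ⊗ ℚ` a space of dimension exactly `2`, and the regulator, for
a suitable loop over each of the two embeddings, gives an isomorphism of this space, tensored with
`ℝ`, with `ℝ²`. -/
theorem result.{u, v} (K : Type u) [Field K] [NumberField K] (hK : Module.finrank ℚ K = 2)
    (s : Fin 2 → (K →+* ℝ)) (hs : s 0 ≠ s 1) (w : (𝓞 K)ˣ) (hw : (w : K) ^ 2 ≠ 1) :
    IsDomain (Ring (w : K)) ∧ (∀ l, Smooth (cx (s l)) (w : K)) ∧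
      ∀ (L : Type v) [Field L] [Algebra (Ring (w : K)) L] [IsFractionRing (Ring (w : K)) L],
        IsoModConstants (pcst (pol (w : K)) (pnt (w : K))) L
          (fun (l : Fin 2) (Γ : Torus (Ring (w : K)) 1) => Over (s l) Γ) := by
  have hw0 : (w : K) ≠ 0 := NumberField.Units.coe_ne_zero w
  have iw : IsIntegral ℤ (w : K) := RingOfIntegers.isIntegral_coe _
  have iw' : IsIntegral ℤ (w : K)⁻¹ := by
    have h4 : ((w⁻¹ : (𝓞 K)ˣ) : K) = (w : K)⁻¹ := by
      refine eq_inv_of_mul_eq_one_left ?_
      rw [← map_mul, ← Units.val_mul, inv_mul_cancel, Units.val_one, map_one]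
    rw [← h4]
    exact RingOfIntegers.isIntegral_coe _
  have h := Pool.Agent.X232.CF.E.sides hK hs w hw
  have h6 : ∀ (L : Type v) [Field L] [Algebra (POpen (Pool.Agent.X232.CF.E.FF (w : K))
      (Pool.Agent.X232.CF.E.bb (w : K))) L] [IsFractionRing (POpen (Pool.Agent.X232.CF.E.FF (w : K))
      (Pool.Agent.X232.CF.E.bb (w : K))) L],
      IsoModConstants (pcst (Pool.Agent.X232.CF.E.FF (w : K)) (Pool.Agent.X232.CF.E.bb (w : K))) L
        (Pool.Agent.X232.CF.E.OverPl (w := (w : K)) fun l => cx (s l)) := fun L _ _ _ =>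
    Pool.Agent.X232.CF.E.iso_E hw0 hw iw iw' h L
  refine ⟨Pool.Agent.X232.CF.E.isDomain_POpen (Pool.Agent.X232.CF.E.pos_FF hw0), fun l => ?_, h6⟩
  have h0 : ∀ l, Pool.Agent.TH690.UF.SmoothPts (cx (s l)) (pol (w : K)) := by
    intro l
    fin_cases l
    · rcases h with ⟨h, -⟩ | ⟨h, -⟩ <;> exact h.smooth
    · rcases h with ⟨-, h⟩ | ⟨-, h⟩ <;> exact h.smooth
  exact h0 l

end Pool.Agent.Results.MP_a09a03_nt.RealQuadraticIsomorphism
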